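import Pool.Agent.W429.TCI.Stmts
set_option autoImplicit false
set_option linter.unusedSectionVars false

/-! Passage to the quotient by `ZN`. -/

namespace Pool.Agent.W356.TCI
open Pool.Agent.Helper805.Nuc.Tens Pool.Agent.Helper805.Nuc.Free Pool.Agent.Helper805.Nuc.NFun
  Pool.Agent.Helper805.Nuc.Alt Pool.Agent.W429.TCI

section ideals
variable {Φ : Type} [CommRing Φ] {A : Type} [NonUnitalNonAssocRing A] [Module Φ A] [IsScalarTower Φ A A]
    [SMulCommClass Φ A A]

lemma ideal_idealGen (S : Set A) : IsIdeal Φ A (idealGen Φ A S) := by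
  intro a x hx
  unfold idealGen at *
  simp only [Submodule.mem_sInf] at *
  exact ⟨fun I hI => (hI.1 a x (hx I hI)).1, fun I hI => (hI.1 a x (hx I hI)).2⟩

lemma subset_idealGen (S : Set A) {s : A} (hs : s ∈ S) : s ∈ idealGen Φ A S := by
  unfold idealGen
  simp only [Submodule.mem_sInf]
  exact fun I hI => hI.2 hs

lemma idealGen_le (S : Set A) (I : Submodule Φ A) (hI : IsIdeal Φ A I) (h : S ⊆ I) : idealGen Φ A S ≤ I :=
  sInf_le ⟨hI, h⟩

end ideals

section quot
variable {F : Type} [Field F] {A : Type} [NonUnitalNonAssocRing A] [Module F A] [IsScalarTower F A A]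
    [SMulCommClass F A A]

/-- the quotient algebra -/
def Qt (I : Submodule F A) (_ : IsIdeal F A I) : Type := A ⧸ I

variable {I : Submodule F A} {hI : IsIdeal F A I}

noncomputable instance : AddCommGroup (Qt I hI) := inferInstanceAs (AddCommGroup (A ⧸ I))
noncomputable instance : Module F (Qt I hI) := inferInstanceAs (Module F (A ⧸ I))

/-- the class -/
noncomputable def mk (hI : IsIdeal F A I) : A →ₗ[F] Qt I hI := I.mkQ

lemma mk_surj : Function.Surjective (mk hI) := Submodule.mkQ_surjective _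

lemma mk_eq {a b : A} : mk hI a = mk hI b ↔ a - b ∈ I := Submodule.Quotient.eq _

noncomputable instance : Mul (Qt I hI) :=
  ⟨Quotient.map₂ (fun a b : A => a * b) (by
    intro a a' ha b b' hb
    have h1 : a - a' ∈ I := (Submodule.quotientRel_def _).mp ha
    have h2 : b - b' ∈ I := (Submodule.quotientRel_def _).mp hb
    refine (Submodule.quotientRel_def _).mpr ?_
    have h3 : a * b - a' * b' = (a - a') * b + a' * (b - b') := by rw [sub_mul, mul_sub]; abel
    rw [h3]
    exact Submodule.add_mem _ (hI b _ h1).2 (hI a' _ h2).1)⟩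

lemma mk_mul (a b : A) : mk hI (a * b) = mk hI a * mk hI b := rfl

noncomputable instance : NonUnitalNonAssocRing (Qt I hI) where
  left_distrib := by
    intro a b c
    obtain ⟨a, rfl⟩ := mk_surj a
    obtain ⟨b, rfl⟩ := mk_surj b
    obtain ⟨c, rfl⟩ := mk_surj c
    rw [← map_add, ← mk_mul, ← mk_mul, ← mk_mul, mul_add, map_add]
  right_distrib := by
    intro a b c
    obtain ⟨a, rfl⟩ := mk_surj a
    obtain ⟨b, rfl⟩ := mk_surj b
    obtain ⟨c, rfl⟩ := mk_surj c
    rw [← map_add, ← mk_mul, ← mk_mul, ← mk_mul, add_mul, map_add]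
  zero_mul := by
    intro a
    obtain ⟨a, rfl⟩ := mk_surj a
    rw [← map_zero (mk hI), ← mk_mul, zero_mul]
  mul_zero := by
    intro a
    obtain ⟨a, rfl⟩ := mk_surj a
    rw [← map_zero (mk hI), ← mk_mul, mul_zero]

instance : IsScalarTower F (Qt I hI) (Qt I hI) := ⟨by
  intro r a b
  obtain ⟨a, rfl⟩ := mk_surj a
  obtain ⟨b, rfl⟩ := mk_surj b
  rw [smul_eq_mul, smul_eq_mul, ← map_smul, ← mk_mul, ← mk_mul, ← map_smul, smul_mul_assoc]⟩

instance : SMulCommClass F (Qt I hI) (Qt I hI) := ⟨by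
  intro r a b
  obtain ⟨a, rfl⟩ := mk_surj a
  obtain ⟨b, rfl⟩ := mk_surj b
  rw [smul_eq_mul, smul_eq_mul, ← map_smul, ← mk_mul, ← mk_mul, ← map_smul, mul_smul_comm]⟩

lemma qAlt (hA : IsAlt A) : IsAlt (Qt I hI) where
  left := by
    intro a b
    obtain ⟨a, rfl⟩ := mk_surj a
    obtain ⟨b, rfl⟩ := mk_surj b
    rw [← mk_mul, ← mk_mul, ← mk_mul, ← mk_mul, hA.left]
  right := by
    intro a b
    obtain ⟨a, rfl⟩ := mk_surj a
    obtain ⟨b, rfl⟩ := mk_surj b
    rw [← mk_mul, ← mk_mul, ← mk_mul, ← mk_mul, hA.right]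

lemma mk_as (a b c : A) : mk hI (as a b c) = as (mk hI a) (mk hI b) (mk hI c) := by
  unfold as
  rw [map_sub, mk_mul, mk_mul, mk_mul, mk_mul]

lemma mk_br (a b : A) : mk hI (br a b) = br (mk hI a) (mk hI b) := by
  unfold br
  rw [map_sub, mk_mul, mk_mul]

/-- preimages of ideals -/
lemma comap_ideal (J : Submodule F (Qt I hI)) (hJ : IsIdeal F (Qt I hI) J) :
    IsIdeal F A (J.comap (mk hI)) := by
  intro a x hx
  rw [Submodule.mem_comap] at hx
  rw [Submodule.mem_comap, Submodule.mem_comap, mk_mul, mk_mul]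
  exact hJ (mk hI a) (mk hI x) hx

lemma pr_comap (U V : Submodule F A) (U' V' : Submodule F (Qt I hI)) (hU : U ≤ U'.comap (mk hI))
    (hV : V ≤ V'.comap (mk hI)) : pr F U V ≤ (pr F U' V').comap (mk hI) := by
  unfold pr
  rw [Submodule.span_le]
  rintro z ⟨i, hi, j, hj, hz⟩
  rw [SetLike.mem_coe, Submodule.mem_comap]
  apply Submodule.subset_span
  refine ⟨mk hI i, hU hi, mk hI j, hV hj, ?_⟩
  rcases hz with rfl | rfl
  · left; rw [mk_mul]
  · right; rw [mk_mul]

end quot

theorem l2 (h : S_L1) : S_L2 := by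
  intro F _ A _ _ _ _ h2 hA hn
  have hI : IsIdeal F A (ZN F A) := ideal_idealGen _
  have hB : IsAlt (Qt (ZN F A) hI) := qAlt hA
  have htor : ∀ b : Qt (ZN F A) hI, b + b = 0 → b = 0 := by
    intro b hb
    have h3 : (2 : F) • b = 0 := by rw [two_smul, hb]
    exact (smul_eq_zero.mp h3).resolve_left h2
  have h1 := h F (Qt (ZN F A) hI) hB htor
  have hPI : PI F A ≤ (ZN F (Qt (ZN F A) hI)).comap (mk hI) := by
    unfold PI
    refine idealGen_le _ _ (comap_ideal _ (ideal_idealGen _)) ?_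
    rintro z ⟨x, y, a, rfl⟩
    rw [SetLike.mem_coe, Submodule.mem_comap, mk_br]
    refine subset_idealGen (Φ := F) (A := Qt (ZN F A) hI)
      {z | ∃ n ∈ nucleus F (Qt (ZN F A) hI), ∃ t, z = n * t - t * n} ?_
    refine ⟨mk hI (nstar x y), ?_, mk hI a, rfl⟩
    have hnuc : IsNuc (mk hI (nstar x y)) := by
      intro u v
      obtain ⟨u, rfl⟩ := mk_surj u
      obtain ⟨v, rfl⟩ := mk_surj v
      rw [← mk_as]
      have h4 := hn x y u v
      have h5 : mk hI (as (nstar x y) u v) = mk hI 0 := by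
        rw [mk_eq, sub_zero]
        exact h4
      rw [h5, map_zero]
    exact (mem_nucleus hB).mpr hnuc
  have hD : Dideal F A ≤ (Dideal F (Qt (ZN F A) hI)).comap (mk hI) := by
    unfold Dideal
    refine idealGen_le _ _ (comap_ideal _ (ideal_idealGen _)) ?_
    rintro z ⟨a, b, c, rfl⟩
    rw [SetLike.mem_coe, Submodule.mem_comap, map_sub, mk_mul, mk_mul, mk_mul, mk_mul]
    apply subset_idealGen
    exact ⟨_, _, _, rfl⟩
  have h3 := pr_comap _ _ _ _ (pr_comap _ _ _ _ hPI hD) hD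
  rw [h1] at h3
  refine h3.trans ?_
  intro a ha
  rw [Submodule.mem_comap, Submodule.mem_bot] at ha
  have h5 : mk hI a = mk hI 0 := by rw [ha, map_zero]
  rw [mk_eq, sub_zero] at h5
  exact h5

end Pool.Agent.W356.TCI
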